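import Mathlib
import Pool.Agent.H.MP_31a5b6_al.Main

set_option autoImplicit false

namespace Pool.Agent.Results.MP_31a5b6_al.Q1

theorem result : ∃ (T : Type) (_ : LinearOrder T), (∃ a b c : T, a < b ∧ b < c) ∧
    ∃ L : Subgroup (T ≃o T),
      (∀ f ∈ L, ∀ g ∈ L, (∃ h ∈ L, ∀ t, h t = max (f t) (g t)) ∧
        ∃ h ∈ L, ∀ t, h t = min (f t) (g t)) ∧
      (∀ r₁ r₂ s₁ s₂ : T, r₁ < r₂ → s₁ < s₂ → ∃ f ∈ L, f r₁ = s₁ ∧ f r₂ = s₂) ∧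
      (∀ f ∈ L, ∃ t₁ t₂ : T, ∀ s, s < t₁ ∨ t₂ < s → f s = s) ∧
      ∀ f ∈ L, (∀ t, t ≤ f t) → f ≠ 1 → ∃ f₁ ∈ L, ∃ f₂ ∈ L, f₁ ≠ 1 ∧ f₂ ≠ 1 ∧
        (∀ t, min (f₁ t) (f₂ t) = t) ∧ ∀ t, max (f₁ t) (f₂ t) = f t :=
  Pool.Agent.H.MP_31a5b6_al.main

end Pool.Agent.Results.MP_31a5b6_al.Q1
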